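import Pool.Agent.Lib.helper10.Kit

namespace Pool.Agent.Results.MP_959b39_lc.TwoW1

open Pool.Agent.Cx Pool.Agent.Cis SimpleGraph Relation

/-- the blue edges: edges of the graph `M` marked in `C` -/
def blue (M C : List (List Bool)) : SimpleGraph (Fin M.length) :=
  graphOf M ⊓ fromRel fun a b => Entry C a b

/-- the red edges: all other edges of the graph `M` -/
def red (M C : List (List Bool)) : SimpleGraph (Fin M.length) := graphOf M \ blue M C

/-- `s` and `t` are outside `S` and in different components of `G - S` -/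
def Cut {V : Type} (G : SimpleGraph V) (S : Set V) (s t : V) : Prop :=
  ∃ (hs : s ∈ Sᶜ) (ht : t ∈ Sᶜ), ¬ (G.induce Sᶜ).Reachable ⟨s, hs⟩ ⟨t, ht⟩

/-- Dual Separator for Two Terminals on `((M, C), (s, t), k)` -/
def DualST (z : (List (List Bool) × List (List Bool)) × (ℕ × ℕ) × ℕ) : Prop :=
  IsGraph z.1.1 ∧ ∃ s t : Fin z.1.1.length, s.1 = z.2.1.1 ∧ t.1 = z.2.1.2 ∧ s ≠ t ∧
    ∃ S : Finset (Fin z.1.1.length), S.card ≤ z.2.2 ∧
      Cut (blue z.1.1 z.1.2) S s t ∧ Cut (red z.1.1 z.1.2) S s t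

/-- CLIQUE reduces to `P` in polynomial time with the parameter `κ` bounded in the clique size -/
def W1Hard {α : Type} [Enc α] (P : α → Prop) (κ : α → ℕ) : Prop :=
  ∃ (F : List Bool → List Bool) (g : ℕ → ℕ), PolyTime F ∧ Computable g ∧
    ∀ (M : List (List Bool)) (k : ℕ), IsGraph M →
      ∃ a, F (enc (M, k)) = enc a ∧ (¬ (graphOf M).CliqueFree k ↔ P a) ∧ κ a ≤ g k

abbrev Vy := ℕ × (ℕ × ℕ) × (ℕ × ℕ) × ℕ

def al (M : List (List Bool)) (i j u v : ℕ) : Prop :=
  u < M.length ∧ v < M.length ∧ ((i = j ∧ u = v) ∨ (i ≠ j ∧ ent M u v = true))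
def cell (M : List (List Bool)) (k : ℕ) (p : Vy) : Prop :=
  p.1 = 1 ∧ p.2.1.1 < k ∧ p.2.1.2 < k ∧ p.2.2.1.1 < M.length + 3 ∧ p.2.2.1.2 < M.length + 3 ∧
    p.2.2.2 ≤ k * k ∧ (¬ al M p.2.1.1 p.2.1.2 p.2.2.1.1 p.2.2.1.2 ∨ p.2.2.2 = 0)
def st (n : ℕ) (p q : Vy) : Prop :=
  (p.1 = 0 ∧ q.1 = 1 ∧ q.2.2.1.1 = 0 ∧ q.2.2.1.2 = 0) ∨
  (p.1 = 1 ∧ q.1 = 2 ∧ p.2.2.1.1 = n + 2 ∧ p.2.2.1.2 = n + 2) ∨
  (p.1 = 1 ∧ q.1 = 1 ∧ p.2.1.1 = q.2.1.1 ∧
    ((q.2.2.1.1 = p.2.2.1.1 ∧ q.2.2.1.2 = p.2.2.1.2 + 1 ∧ p.2.1.2 = q.2.1.2) ∨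
      (q.2.2.1.1 = p.2.2.1.1 + 1 ∧ p.2.2.1.2 = n + 2 ∧ q.2.2.1.2 = 0)))
def bl (n : ℕ) (p q : Vy) : Prop := st n p q ∨ st n q p
def sw (p : Vy) : Vy := (2 - p.1, (p.2.1.2, p.2.1.1), (p.2.2.1.2, p.2.2.1.1), p.2.2.2)
def rr (n : ℕ) (p q : Vy) : Prop := bl n p q ∨ bl n (sw p) (sw q)
instance (M : List (List Bool)) (k : ℕ) : DecidablePred (cell M k) := fun _ => by
  unfold cell al; infer_instance
instance (n : ℕ) : DecidableRel (bl n) := fun _ _ => by unfold bl st; infer_instance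
instance (n : ℕ) : DecidableRel (rr n) := fun _ _ => by unfold rr; infer_instance
def verts (I : List (List Bool) × ℕ) : List Vy :=
  (0, (0, 0), (0, 0), 0) :: (2, (0, 0), (0, 0), 0) ::
  (List.range 2 ×ˢ (List.range I.2 ×ˢ List.range I.2) ×ˢ
    (List.range (I.1.length + 3) ×ˢ List.range (I.1.length + 3)) ×ˢ List.range (I.2 * I.2 + 1)).filter
      fun p => decide (cell I.1 I.2 p)
def rd (I : List (List Bool) × ℕ) : (List (List Bool) × List (List Bool)) × (ℕ × ℕ) × ℕ :=
  ((mat (verts I) fun p q => decide (rr I.1.length p q), mat (verts I) fun p q => decide (bl I.1.length p q)),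
    (0, 1), I.2 * I.2)
def ok (M : List (List Bool)) (k : ℕ) (p : Vy) : Prop :=
  p = (0, (0, 0), (0, 0), 0) ∨ p = (2, (0, 0), (0, 0), 0) ∨ cell M k p

lemma mem_verts {M : List (List Bool)} {k : ℕ} {p : Vy} : p ∈ verts (M, k) ↔ ok M k p := by
  obtain ⟨t, ⟨i, j⟩, ⟨u, v⟩, c⟩ := p
  simp only [verts, List.mem_cons, List.mem_filter, List.mem_product, List.mem_range, decide_eq_true_eq, ok]
  refine or_congr_right (or_congr_right (and_iff_right_of_imp ?_))
  simp only [cell]
  omega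

lemma rd_pt : PT rd := by
  have b1 : PT verts := by
    unfold verts
    refine PT.cons (by fun_prop) (PT.cons (by fun_prop) (PT.filter (PP.decide ?_) (by fun_prop)))
    unfold cell al; fun_prop
  refine PT.pair (PT.pair (PT.mat (by fun_prop) (PP.decide ?_)) (PT.mat (by fun_prop) (PP.decide ?_)))
    (by fun_prop)
  · unfold rr bl st sw; fun_prop
  · unfold bl st; fun_prop

def inS (y : ℕ → ℕ) (p : Vy) : Prop := p.1 = 1 ∧ p.2.2.1.1 = y p.2.1.1 ∧ p.2.2.1.2 = y p.2.1.2
def sd (y : ℕ → ℕ) (p : Vy) : Prop :=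
  p.1 = 0 ∨ (p.1 = 1 ∧ (p.2.2.1.1 < y p.2.1.1 ∨ (p.2.2.1.1 = y p.2.1.1 ∧ p.2.2.1.2 < y p.2.1.2)))

section
variable {M : List (List Bool)} {k : ℕ} {y : ℕ → ℕ}

lemma ok_sw (hM : IsGraph M) {p : Vy} (h : ok M k p) : ok M k (sw p) ∧ sw (sw p) = p := by
  obtain ⟨t, ⟨i, j⟩, ⟨u, v⟩, c⟩ := p
  have : ent M v u = true → ent M u v = true := hM.2.2 _ _
  rcases h with h | h | h
  · rw [h]; simp [ok, sw]
  · rw [h]; simp [ok, sw]
  simp only [cell] at h
  obtain ⟨rfl, a, b, c, d, e, h⟩ := h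
  refine ⟨Or.inr (Or.inr ⟨rfl, b, a, d, c, e, h.imp_left fun h x => h ?_⟩), rfl⟩
  simp only [al, sw] at *
  grind

lemma dis {n : ℕ} {p q : Vy} (a : p.1 ≤ 2) (b : q.1 ≤ 2) (h : bl n (sw p) (sw q)) : ¬ bl n p q := by
  simp only [bl, st, sw] at *
  omega

lemma step (hy : ∀ i < k, y i < M.length) {p q : Vy} (a : ok M k p)
    (h : bl M.length p q) (c : sd y p) (d : ¬ inS y q) : sd y q := by
  obtain ⟨t, ⟨i, j⟩, ⟨u, v⟩, c⟩ := p
  obtain ⟨t', ⟨i', j'⟩, ⟨u', v'⟩, c'⟩ := q
  have := hy i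
  have := hy j
  have a' : t = 1 → i < k ∧ j < k := by simp only [ok, cell, Prod.mk.injEq] at a; omega
  clear a
  simp only [bl, st, sd, inS] at *
  grind

variable {V : Type} {G : SimpleGraph V} {f : V → Vy} {g : Vy → V} {s t : V}

lemma Cut.symm {S : Set V} (h : Cut G S s t) : Cut G S t s :=
  let ⟨a, b, c⟩ := h; ⟨b, a, fun r => c r.symm⟩

lemma fw (hy : ∀ i < k, y i < M.length) (h1 : ∀ a b, G.Adj a b → bl M.length (f a) (f b))
    (hf : ∀ a, ok M k (f a)) {S : Set V} (hS : ∀ a, a ∈ S ↔ inS y (f a)) (hs : (f s).1 = 0)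
    (ht : (f t).1 = 2) : Cut G S s t := by
  refine ⟨by simp [hS, inS, hs], by simp [hS, inS, ht], fun r => ?_⟩
  rw [reachable_iff_reflTransGen] at r
  have : ∀ a b : (Sᶜ : Set V), ReflTransGen (G.induce Sᶜ).Adj a b → sd y (f a) → sd y (f b) :=
    fun a b r e => by
      induction r with
      | refl => exact e
      | @tail b c _ x ih => exact step hy (hf _) (h1 _ _ x) ih fun z => c.2 ((hS _).2 z)
  simpa [sd, hs, ht] using this _ _ r

lemma bw (h1 : ∀ a b, bl M.length (f a) (f b) → G.Adj a b) (hg : ∀ p, ok M k p → f (g p) = p)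
    {S : Finset V} (hS : S.card ≤ k * k) (hs : (f s).1 = 0) (ht : (f t).1 = 2) (h : Cut G S s t) :
    ∀ i < k, ∃ u, ∀ j < k, ∃ v, g (1, (i, j), (u, v), 0) ∈ S ∧ al M i j u v := by
  classical
  intro i hi
  by_contra c
  push Not at c
  choose j hj c using c
  have q0 : ∀ u < M.length + 3, ∀ v < M.length + 3, ∃ a, a ∉ S ∧ ∃ e, f a = (1, (i, j u), (u, v), e) :=
    fun u x v z => by
      by_cases e : al M i (j u) u v
      · exact ⟨_, fun q => c u v q e, _, hg _ (by simp [ok, cell, *])⟩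
      have o : ∀ l < k * k + 1, f (g (1, (i, j u), (u, v), l)) = (1, (i, j u), (u, v), l) := fun l _ =>
        hg _ (by simp [ok, cell, *]; omega)
      obtain ⟨a, x, y⟩ := Finset.exists_mem_notMem_of_card_lt_card (s := S)
        (t := (Finset.range (k * k + 1)).image fun l => g (1, (i, j u), (u, v), l)) (by
          rw [Finset.card_image_of_injOn fun a x b y e => by
            simp only [Finset.coe_range, Set.mem_Iio] at x y
            simpa [o a x, o b y] using congrArg f e]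
          simp; omega)
      obtain ⟨l, x', rfl⟩ := Finset.mem_image.1 x
      exact ⟨_, y, _, o l (Finset.mem_range.1 x')⟩
  have : Nonempty V := ⟨s⟩
  choose! x x1 e x2 using q0
  obtain ⟨a, b, h⟩ := h
  obtain ⟨R, hR⟩ : ∃ R : V → Prop, ∀ v, R v ↔ ∃ q : v ∈ (↑S : Set V)ᶜ,
    (G.induce (↑S : Set V)ᶜ).Reachable ⟨s, a⟩ ⟨v, q⟩ := ⟨_, fun _ => Iff.rfl⟩
  have r : ∀ v w, R v → w ∉ S → st M.length (f v) (f w) → R w := fun v w p q z => by
    obtain ⟨p, p'⟩ := (hR v).1 p
    exact (hR w).2 ⟨q, p'.trans (Adj.reachable (h1 _ _ (Or.inl z)))⟩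
  have r1 : ∀ u < M.length + 3, R (x u 0) → ∀ v < M.length + 3, R (x u v) := fun u p q v => by
    induction v with
    | zero => exact fun _ => q
    | succ v ih =>
      exact fun z => r _ _ (ih (by omega)) (x1 u p _ z) (by simp [st, x2 u p _ z, x2 u p v (by omega)])
  have r2 : ∀ u < M.length + 3, R (x u 0) := fun u => by
    induction u with
    | zero =>
      exact fun z => r _ _ ((hR s).2 ⟨a, .refl _⟩) (x1 0 z 0 z) (by simp [st, x2 0 z 0 z, hs])
    | succ u ih =>
      exact fun z => r _ _ (r1 u (by omega) (ih (by omega)) (M.length + 2) (by omega))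
        (x1 _ z 0 (by omega)) (by simp [st, x2 _ z 0 (by omega), x2 u (by omega) (M.length + 2) (by omega)])
  obtain ⟨_, q⟩ := (hR t).1 (r _ _ (r1 (M.length + 2) (by omega) (r2 _ (by omega)) (M.length + 2) (by omega))
    b (by simp [st, ht, x2 (M.length + 2) (by omega) (M.length + 2) (by omega)]))
  exact h q

end

theorem result : W1Hard DualST fun z => z.2.2 := by
  classical
  refine ⟨fun x => enc (rd (decode x)), fun k => k * k, polyTime_of_PT (rd_pt.comp (by fun_prop)),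
    (Primrec.nat_mul.comp .id .id).to_comp, fun M k hM => ⟨rd (M, k), by simp, ?_, le_rfl⟩⟩
  obtain ⟨h0, f, h1, h2, h3, h4⟩ := graph_kit (verts (M, k)) (rr M.length)
    (fun p q h => h.imp Or.symm Or.symm) (fun p h => by simp only [rr, bl, st] at h; omega)
    (by
      refine List.nodup_cons.2 ⟨by simp [cell], List.nodup_cons.2 ⟨by simp [cell], ?_⟩⟩
      exact (List.nodup_range.product ((List.nodup_range.product List.nodup_range).product
        ((List.nodup_range.product List.nodup_range).product List.nodup_range))).filter _)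
    (M := (rd (M, k)).1.1) rfl
  simp only [mem_verts] at h2
  have l2 : 2 ≤ (rd (M, k)).1.1.length := by simp [rd, verts]
  have : Nonempty (Fin (rd (M, k)).1.1.length) := ⟨⟨0, by omega⟩⟩
  have hg : ∀ p, ok M k p → f (Function.invFun f p) = p := fun p h => Function.invFun_eq ((h2 p).2 h)
  have hf : ∀ a, ok M k (f a) := fun a => (h2 _).1 ⟨a, rfl⟩
  have t2 : ∀ a, (f a).1 ≤ 2 := fun a => by
    rcases hf a with h | h | h
    · simp [h]
    · simp [h]
    · simp [h.1]
  have eC : ∀ a b : Fin (rd (M, k)).1.1.length, Entry (rd (M, k)).1.2 a b ↔ bl M.length (f a) (f b) :=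
    fun a b => by
      obtain ⟨x, p⟩ := List.getElem?_eq_some_iff.1 (h4 a)
      obtain ⟨z, q⟩ := List.getElem?_eq_some_iff.1 (h4 b)
      simp only [rd, Entry, mat_get, x, z, p, q, exists_true_left, decide_eq_true_eq]
  have eb : ∀ a b, (blue _ (rd (M, k)).1.2).Adj a b ↔ bl M.length (f a) (f b) := fun a b => by
    simp only [blue, inf_adj, fromRel_adj, eC]
    exact ⟨fun h => h.2.2.elim id Or.symm, fun h => ⟨(h1 _ _).2 (Or.inl h), ((h1 _ _).2 (Or.inl h)).ne, Or.inl h⟩⟩
  have er : ∀ a b, (red _ (rd (M, k)).1.2).Adj a b ↔ bl M.length (sw (f a)) (sw (f b)) := fun a b => by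
    simp only [red, sdiff_adj, eb, h1]
    exact ⟨fun h => h.1.resolve_left h.2, fun h => ⟨Or.inr h, dis (t2 a) (t2 b) h⟩⟩
  have s0 : f ⟨0, by omega⟩ = (0, (0, 0), (0, 0), 0) := by simpa [verts, eq_comm] using h4 ⟨0, by omega⟩
  have s1 : f ⟨1, by omega⟩ = (2, (0, 0), (0, 0), 0) := by simpa [verts, eq_comm] using h4 ⟨1, by omega⟩
  constructor
  · intro h
    obtain ⟨φ⟩ := (graphOf M).not_cliqueFree_iff_top_isContained k |>.1 h
    obtain ⟨y, hy⟩ : ∃ y : ℕ → ℕ, ∀ i < k, y i < M.length ∧ ∀ j < k, i ≠ j → ent M (y i) (y j) = true := by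
      refine ⟨fun i => if h : i < k then φ ⟨i, h⟩ else 0, fun i hi => ⟨by simp [hi], fun j hj d => ?_⟩⟩
      simpa [hi, hj, ← adj_iff hM] using
        φ.toHom.map_adj (show (⊤ : SimpleGraph (Fin k)).Adj ⟨i, hi⟩ ⟨j, hj⟩ by simpa)
    refine ⟨h0, ⟨0, by omega⟩, ⟨1, by omega⟩, rfl, rfl, by simp, Finset.univ.filter fun a => inS y (f a), ?_,
      fw (fun i h => (hy i h).1) (fun a b => (eb a b).1) hf (by simp) (by rw [s0]) (by rw [s1]),
      (fw (f := fun a => sw (f a)) (fun i h => (hy i h).1) (fun a b => (er a b).1)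
        (fun a => (ok_sw hM (hf a)).1) (fun a => ?_) (by simp [s1, sw]) (by simp [s0, sw])).symm⟩
    · have c : ∀ a, inS y (f a) → (f a).2.1.1 < k ∧ (f a).2.1.2 < k ∧ (f a).2.2.2 = 0 := fun a h => by
        have := hf a
        have := hy (f a).2.1.1
        have := hy (f a).2.1.2
        simp only [ok, cell, al, inS, Prod.ext_iff] at *
        grind
      refine (Finset.card_le_card_of_injOn (t := Finset.range k ×ˢ Finset.range k) (fun a => (f a).2.1)
        (fun a h => ?_) fun a x b z e => h3 ?_).trans (by simp [rd])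
      · simpa using And.intro (c a (by simpa using h)).1 (c a (by simpa using h)).2.1
      · simp only [Finset.coe_filter, Finset.mem_univ, true_and, Set.mem_ofPred_eq] at x z e
        have := c a x
        have := c b z
        simp only [inS, Prod.ext_iff] at *
        grind
    · have := t2 a
      simp only [Finset.coe_filter, Finset.mem_univ, true_and, Set.mem_ofPred_eq, inS, sw]
      omega
  · rintro ⟨-, s, t, e1, e2, -, S, c0, c1, c2⟩
    replace s0 : f s = _ := (congrArg f (Fin.ext e1)).trans s0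
    replace s1 : f t = _ := (congrArg f (Fin.ext e2)).trans s1
    have b1 := bw (fun a b => (eb a b).2) hg c0 (by rw [s0]) (by rw [s1]) c1
    have b2 := bw (f := fun a => sw (f a)) (g := fun p => Function.invFun f (sw p)) (fun a b => (er a b).2)
      (fun p h => by rw [hg _ (ok_sw hM h).1, (ok_sw hM h).2]) c0 (by simp [s1, sw]) (by simp [s0, sw]) c2.symm
    choose! a b h5 h6 using b1
    choose! c d h7 h8 using b2
    have o : ∀ i < k, ∀ j < k, ∀ u v, u < M.length → v < M.length →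
        f (Function.invFun f (1, (i, j), (u, v), 0)) = (1, (i, j), (u, v), 0) := fun i x j z u v p q =>
      hg _ (by simp [ok, cell, *]; omega)
    have e := Finset.eq_of_subset_of_card_le (s := (Finset.range k ×ˢ Finset.range k).image fun p =>
      Function.invFun f (1, p, (a p.1, b p.1 p.2), 0)) (t := S) (fun x h => by
        simp only [Finset.mem_image, Finset.mem_product, Finset.mem_range] at h
        obtain ⟨p, ⟨x, z⟩, rfl⟩ := h
        exact h5 _ x _ z) (by
        rw [Finset.card_image_of_injOn fun p x q z e => by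
          simp only [Finset.coe_product, Finset.coe_range, Set.mem_prod, Set.mem_Iio] at x z
          have := congrArg f e
          rw [o _ x.1 _ x.2 _ _ (h6 _ x.1 _ x.2).1 (h6 _ x.1 _ x.2).2.1,
            o _ z.1 _ z.2 _ _ (h6 _ z.1 _ z.2).1 (h6 _ z.1 _ z.2).2.1] at this
          exact congrArg (·.2.1) this]
        simpa [rd] using c0)
    have w : ∀ i < k, ∀ j < k, al M i j (a i) (c j) := fun i x j z => by
      have := h7 j z i x
      rw [← e] at this
      simp only [Finset.mem_image, Finset.mem_product, Finset.mem_range] at this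
      obtain ⟨p, ⟨p1, p2⟩, q⟩ := this
      have q := congrArg f q
      rw [o _ p1 _ p2 _ _ (h6 _ p1 _ p2).1 (h6 _ p1 _ p2).2.1, show sw _ = (1, (i, j), (d j i, c j), 0) from rfl,
        o _ x _ z _ _ (h8 _ z _ x).2.1 (h8 _ z _ x).1] at q
      simp only [Prod.ext_iff] at q
      have := h6 i x j z
      grind
    have w1 : ∀ i < k, a i = c i ∧ a i < M.length := fun i x => by have := w i x i x; simp [al] at this; tauto
    have aj : ∀ i j : Fin k, i ≠ j → (graphOf M).Adj ⟨a i, (w1 i i.2).2⟩ ⟨a j, (w1 j j.2).2⟩ :=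
      fun i j d => (adj_iff hM _ _).2 (by
        have := w i i.2 j j.2
        have := w1 j j.2
        have := Fin.val_ne_of_ne d
        unfold al at *
        grind)
    exact ((graphOf M).not_cliqueFree_iff_top_isContained k).2 ⟨⟨⟨fun i => ⟨a i, (w1 i i.2).2⟩,
      fun {i j} h => aj i j h⟩, fun i j e => by_contra fun d => (aj i j d).ne e⟩⟩

end Pool.Agent.Results.MP_959b39_lc.TwoW1
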